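import Pool.Agent.Helper65.BR.Goals

/-!
# Packet BR-PAR: the parameters are admissible
-/

namespace Pool.Agent.Helper96.BR

open Pool.Agent.Helper65.LinSpace Pool.Agent.Helper78.Mpc Pool.Agent.Helper28.Ram Finset
open Pool.Agent.Helper65.RT (qT CT)
open Pool.Agent.Helper65.BR

theorem fnN_lt (e S Λ β B a : ℕ) : fnN e S Λ β B a < 2 ^ (S + 1) := by
  unfold fnN ifz
  have hp : 0 < 2 ^ (S + 1) := by positivity
  split_ifs with h1 h2
  · exact hp
  · have hc : cntN e S Λ β B a ≤ S := by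
      unfold lt01 at h2
      by_contra h
      rw [if_pos (by omega)] at h2
      omega
    have ht : tab 2 (cntN e S Λ β B a)
        (fun i => univ (Nat.unpair e).2 Λ β (queryN B i a)) < 2 ^ cntN e S Λ β B a :=
      tab_lt fun i _ => univ_lt _ _ _ _
    have h3 : 2 ^ (cntN e S Λ β B a + 1) ≤ 2 ^ (S + 1) :=
      Nat.pow_le_pow_right (by norm_num) (by omega)
    rw [pow_succ] at h3
    omega
  · exact hp

theorem le01_ne {x y : ℕ} (h : le01 x y ≠ 0) : x ≤ y := by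
  unfold le01 at h
  by_contra h'
  rw [if_neg h'] at h
  exact h rfl

variable (P : Prm)

theorem nxN_lt (q v : ℕ) : P.nxN q v < 2 ^ (P.S + 1) := by
  unfold Prm.nxN ifz
  have hp : 0 < 2 ^ (P.S + 1) := by positivity
  split_ifs
  · exact hp
  · exact hp
  · exact fnN_lt _ _ _ _ _ _
  · exact fnN_lt _ _ _ _ _ _
  · exact capN_lt _ _

theorem s0_lt : P.s0 < 2 ^ (P.S + 1) := fnN_lt _ _ _ _ _ _

theorem rdN_lt (q : ℕ) : P.rdN q < 2 ^ (P.Z + 1) := by
  unfold Prm.rdN ifz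
  split_ifs
  · positivity
  · exact fnN_lt _ _ _ _ _ _

theorem sil_lt {q : ℕ} (hq : q < 2 ^ (P.S + 1)) (i : ℕ) : P.sil q i < 2 ^ (P.S + 1) := by
  induction i with
  | zero => exact hq
  | succ i ih =>
    have e : P.sil q (i + 1) = ifz (P.stop (P.sil q i)) (P.nxN (P.sil q i) 1) (P.sil q i) := rfl
    rw [e, ifz]
    split_ifs
    · exact nxN_lt _ _ _
    · exact ih

theorem wil_lt {q x c : ℕ} (hc : c < 2 ^ (P.H + 1)) (i : ℕ) : P.wil q x c i < 2 ^ (P.H + 1) := by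
  induction i with
  | zero => exact hc
  | succ i ih =>
    have e : P.wil q x c (i + 1) = ifz (P.stop (P.sil q i))
      (P.wrN (P.sil q (i + 1)) x (P.wil q x c i)) (P.wil q x c i) := rfl
    rw [e, ifz]
    split_ifs
    · exact fnN_lt _ _ _ _ _ _
    · exact ih

theorem mach_ok (hE : 0 < P.E) (hG : 0 < P.G) : P.mach.Ok where
  ha := Nat.succ_pos _
  hE := hE
  hG := hG
  hA q := rdN_lt P q
  hN q v := sil_lt P (nxN_lt P q v) _
  hW _ _ _ _ := capN_lt _ _
  hq0 := sil_lt P (s0_lt P) _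
  hM0 x := wil_lt P (by
    calc 1 < 2 ^ 1 := by norm_num
      _ ≤ 2 ^ (P.H + 1) := Nat.pow_le_pow_right (by norm_num) (by omega)) _

theorem ZL_lt_qT (n : ℕ) : Pool.Agent.Helper28.Long.ZL n + 1 ≤ qT n := by
  have h2 : Pool.Agent.Helper28.Long.ZL n ≤ LW n := Nat.div_le_self _ _
  unfold LW at h2
  unfold qT
  omega

theorem bT_le (n T i : ℕ) : bT n T i + 1 ≤ qT n := by
  have h1 : bT n T i ≤ Pool.Agent.Helper28.Long.ZL n := min_le_right _ _
  have h2 := ZL_lt_qT n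
  omega

theorem qT_le' (n : ℕ) : qT n ≤ n + 1 :=
  Nat.add_le_add_right (Nat.div_le_self _ _) 1

/-- The number of bits of a name. -/
theorem sig (n S H : ℕ) (hS : S + 1 ≤ qT n) :
    Nat.log 2 ((S + 1) / (H + 1) + 1) ≤ ll n + 1 ∧
      Nat.log 2 ((S + 1) / (H + 1) + 1) ≤ qT n := by
  have h1 : (S + 1) / (H + 1) ≤ S + 1 := Nat.div_le_self _ _
  have h2 := qT_le' n
  constructor
  · have h3 : (S + 1) / (H + 1) + 1 ≤ n + 2 := by omega
    have h4 := lt_two_pow_ll n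
    have h5 : (S + 1) / (H + 1) + 1 < 2 ^ (ll n + 2) := by
      rw [pow_succ, pow_succ]
      omega
    have h6 : Nat.log 2 ((S + 1) / (H + 1) + 1) < ll n + 2 :=
      Nat.log_lt_of_lt_pow (Nat.succ_ne_zero _) h5
    omega
  · have h3 : Nat.log 2 ((S + 1) / (H + 1) + 1) < (S + 1) / (H + 1) + 1 :=
      Nat.log_lt_self 2 (Nat.succ_ne_zero _)
    omega

theorem PAR : PAR_stmt := by
  intro e x y T p
  generalize hn : Nat.log 2 x = n
  have hS := bT_le n T 0
  have hH := bT_le n T 1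
  have hZ := bT_le n T 2
  have hq := qT_le' n
  obtain ⟨hl1, hl2⟩ := sig n (bT n T 0) (bT n T 1) hS
  set σ := bT n T 2 + 1 + Nat.log 2 ((bT n T 0 + 1) / (bT n T 1 + 1) + 1) + 2 with hσ
  have hσl : σ ≤ lT n T := by
    unfold lT
    omega
  have hll := ll_pos n
  have fS : (prm e x y T p).mach.s = bT n T 0 + 1 := by
    change bT (Nat.log 2 x) T 0 + 1 = _
    rw [hn]
  have fa : (prm e x y T p).mach.rt.a = bT n T 1 + 1 := by
    change bT (Nat.log 2 x) T 1 + 1 = _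
    rw [hn]
  have fb : (prm e x y T p).mach.rt.b = bT n T 1 + 1 := fa
  have fσ : (prm e x y T p).mach.rt.σ = σ := by
    change bT (Nat.log 2 x) T 2 + 1 + Nat.log 2 ((bT (Nat.log 2 x) T 0 + 1) /
      (bT (Nat.log 2 x) T 1 + 1) + 1) + 2 = _
    rw [hn]
  have fE : (prm e x y T p).mach.rt.E = ifz (oT n T) 1 (gT n T) := by
    change ifz (oT (Nat.log 2 x) T) 1 (gT (Nat.log 2 x) T) = _
    rw [hn]
  have fG : (prm e x y T p).mach.rt.G = ifz (oT n T) 1 (gT n T) := fE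
  have fK : (prm e x y T p).mach.rt.K ≤ ifz (oT n T) 0 (kT n T) := by
    change ifz _ 0 (ifz (oT (Nat.log 2 x) T) 0 (kT (Nat.log 2 x) T)) ≤ _
    rw [hn]
    unfold ifz
    split_ifs <;> omega
  have hok : (prm e x y T p).mach.Ok := by
    have h1 : 0 < (prm e x y T p).E := by
      change 0 < ifz (oT (Nat.log 2 x) T) 1 (gT (Nat.log 2 x) T)
      unfold ifz gT
      split_ifs <;> omega
    exact mach_ok _ h1 h1
  refine ⟨?_, hok⟩
  generalize (prm e x y T p).mach.rt = m at *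
  by_cases ho : oT n T = 0
  · rw [ho] at fE fG fK
    have fK0 : m.K = 0 := Nat.le_zero.1 fK
    have fE1 : m.E = 1 := fE
    have fG1 : m.G = 1 := fG
    refine ⟨?_, ?_, ?_, ?_⟩
    · unfold Pool.Agent.Helper65.RT.Mach.wn Pool.Agent.Helper65.RT.Mach.wv
      rw [fE1, fG1, fa, fb]
      omega
    · rw [fK0]
      omega
    · rw [fK0, fσ]
      omega
    · rw [fK0, fσ, fE1]
      omega
  · have e1 : ifz (oT n T) 1 (gT n T) = gT n T := if_neg ho
    have e2 : ifz (oT n T) 0 (kT n T) = kT n T := if_neg ho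
    rw [e1] at fE fG
    rw [e2] at fK
    unfold oT at ho
    obtain ⟨o1, ho⟩ := Nat.mul_ne_zero_iff.1 ho
    obtain ⟨o2, ho⟩ := Nat.mul_ne_zero_iff.1 ho
    obtain ⟨o3, o4⟩ := Nat.mul_ne_zero_iff.1 ho
    have h1 := le01_ne o1
    have h2 := le01_ne o2
    have h3 := le01_ne o3
    have h4 := le01_ne o4
    refine ⟨?_, ?_, ?_, ?_⟩
    · unfold Pool.Agent.Helper65.RT.Mach.wn Pool.Agent.Helper65.RT.Mach.wv
      rw [fE, fG, fa, fb]
      exact h1
    · rw [fG]
      exact (Nat.mul_le_mul_right _ fK).trans h2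
    · rw [fσ]
      exact (Nat.mul_le_mul (by omega) hσl).trans h3
    · rw [fσ, fE]
      exact (Nat.mul_le_mul (by omega) (Nat.mul_le_mul_right _ hσl)).trans h4

end Pool.Agent.Helper96.BR
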