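import Pool.Agent.Helper65.BR.PGoals

/-!
# Packet BR-PCODE
-/

namespace Pool.Agent.Helper96.BR

open Pool.Agent.Helper65.BR
open Pool.Agent.Helper65.LinSpace Pool.Agent.Helper78.Mpc Pool.Agent.Helper28.Ram

theorem PCODE : PCODE_stmt := by
  intro A
  obtain ⟨eI, cI, hI⟩ := fnN_spec A.init_lin
  obtain ⟨eA, cA, hA⟩ := fnN_spec A.addr_lin
  obtain ⟨eR, cR, hR⟩ := fnN_spec A.reg_lin
  obtain ⟨eN, cN, hN⟩ := fnN_spec A.next_lin
  obtain ⟨eO, cO, hO⟩ := fnN_spec A.out_lin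
  refine ⟨eI, eA, eR, eN, eO, cI + cA + cR + cN + cO, ?_⟩
  intro P h1 h2 h3 h4 h5 hΛ hβ hMS hMZ hMH
  have key : ∀ c : ℕ, c ≤ cI + cA + cR + cN + cO → ∀ X l : ℕ, X + l + 2 ≤
      4 * (P.S + P.Z + P.H) + 20 → c * (X + l + 2) ≤ P.Λ ∧ c + P.Λ + X + l + 1 ≤ P.β := by
    intro c hc X l hX
    refine ⟨(Nat.mul_le_mul hc hX).trans hΛ, ?_⟩
    omega
  constructor
  · intro u hu
    obtain ⟨a, b⟩ := key cI (by omega) P.S u.length (by omega)
    rw [h1]; exact hI u _ _ _ _ a b hMS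
  · intro u hu
    obtain ⟨a, b⟩ := key cA (by omega) P.S u.length (by omega)
    rw [h2]; exact hA u _ _ _ _ a b hMS
  · intro u hu
    obtain ⟨a, b⟩ := key cR (by omega) P.Z u.length (by omega)
    rw [h3]; exact hR u _ _ _ _ a b hMZ
  · intro u hu
    obtain ⟨a, b⟩ := key cN (by omega) P.S u.length (by omega)
    rw [h4]; exact hN u _ _ _ _ a b hMS
  · intro u hu
    obtain ⟨a, b⟩ := key cO (by omega) P.H u.length (by omega)
    rw [h5]; exact hO u _ _ _ _ a b hMH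

end Pool.Agent.Helper96.BR
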